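import Pool.Agent.helper53.ORT.Spec

set_option autoImplicit false

namespace Pool.Agent.ORT

open Module Pool.Agent.GS

/-- central elements of `Om B` are scalars -/
theorem FG_centre (cno : CNO_stmt) {F V : Type} [Field F] [Finite F] [AddCommGroup V] [Module F V]
    [FiniteDimensional F V] (B : LinearMap.BilinForm F V) (h2 : ringChar F ≠ 2) (hB : Sym B)
    (hfr : 6 ≤ finrank F V) (ζ : Om B) (hζ : ζ ∈ Subgroup.center (Om B)) :
    ∃ c : F, ∀ v, (ζ : Equiv.Perm V) v = c • v := by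
  refine cno B h2 hB hfr (ζ : Equiv.Perm V) (Om_le B ζ.2) ?_
  intro g hg
  refine ⟨1, fun v => ?_⟩
  have h1 : (⟨g, hg⟩ : Om B) * ζ = ζ * ⟨g, hg⟩ := Subgroup.mem_center_iff.1 hζ ⟨g, hg⟩
  have h3 : g * (ζ : Equiv.Perm V) = (ζ : Equiv.Perm V) * g := congrArg Subtype.val h1
  have h4 : (ζ : Equiv.Perm V) * g * (ζ : Equiv.Perm V)⁻¹ * g⁻¹ = 1 := by
    rw [← h3]
    group
  rw [h4, one_smul]
  rfl

theorem FG (cno : CNO_stmt) (nom : NOM_stmt) (ad : GS.AD_stmt) : FG_stmt := by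
  intro F V _ _ _ _ _ B h2 hB hfr x y ψ ν hy hx
  have hmem : ∀ g : Om B, (g : Equiv.Perm V) ∈ SpG B := fun g => Om_le B g.2
  have HY : ∀ g : Om B, ∃ h : Om B, (h : Equiv.Perm V) = y * g * y⁻¹ := fun g =>
    ⟨⟨y * g * y⁻¹, (nom B y ψ ν hy g).1 g.2⟩, rfl⟩
  constructor
  · intro hx1
    by_contra hns
    unfold NSc at hns
    push Not at hns
    obtain ⟨c, hc⟩ := hns
    apply hx1
    apply MulEquiv.ext
    intro q
    obtain ⟨g, rfl⟩ := QuotientGroup.mk_surjective q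
    have e1 : (g : Equiv.Perm V) = y * g * y⁻¹ := by
      rw [eq_mul_inv_iff_mul_eq]
      apply Equiv.ext
      intro v
      rw [Equiv.Perm.mul_apply, Equiv.Perm.mul_apply, hc, hc, (hmem g).1.2]
    rw [hx g g e1]
    rfl
  · intro r k z hz hgen hNS
    obtain ⟨N, Ad, hN, hAd⟩ := ad (Om B).subtype (Subgroup.subtype_injective (Om B))
    have hyN : y ∈ N := by
      apply hN
      · intro g
        obtain ⟨h, hh⟩ := HY g
        exact ⟨h, hh⟩
      · intro g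
        have h1 : y * (y⁻¹ * (g : Equiv.Perm V) * y) * y⁻¹ ∈ Om B := by
          have h3 : y * (y⁻¹ * (g : Equiv.Perm V) * y) * y⁻¹ = g := by group
          rw [h3]
          exact g.2
        exact ⟨⟨y⁻¹ * g * y, (nom B y ψ ν hy _).2 h1⟩, rfl⟩
    have hφN : ∀ γ : Om B, (γ : Equiv.Perm V) ∈ N := by
      intro γ
      apply hN
      · intro g
        exact ⟨γ * g * γ⁻¹, rfl⟩
      · intro g
        exact ⟨γ⁻¹ * g * γ, rfl⟩
    have hscN : ∀ c : Fˣ, sc V c ∈ N := by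
      intro c
      apply hN
      · intro g
        refine ⟨g, ?_⟩
        change (g : Equiv.Perm V) = sc V c * (g : Equiv.Perm V) * (sc V c)⁻¹
        rw [← sc_comm (hmem g).1 c, mul_inv_cancel_right]
      · intro g
        refine ⟨g, ?_⟩
        change (g : Equiv.Perm V) = (sc V c)⁻¹ * (g : Equiv.Perm V) * sc V c
        rw [mul_assoc, sc_comm (hmem g).1 c, inv_mul_cancel_left]
    have hAy : Ad ⟨y, hyN⟩ = x := by
      apply MulEquiv.ext
      intro q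
      obtain ⟨g, rfl⟩ := QuotientGroup.mk_surjective q
      obtain ⟨h, hh⟩ := HY g
      rw [hx g h hh]
      exact hAd ⟨y, hyN⟩ g h hh
    have hAφ : ∀ γ : Om B, Ad ⟨(γ : Equiv.Perm V), hφN γ⟩ = MulAut.conj (QuotientGroup.mk γ) := by
      intro γ
      apply MulEquiv.ext
      intro q
      obtain ⟨g, rfl⟩ := QuotientGroup.mk_surjective q
      rw [hAd ⟨(γ : Equiv.Perm V), hφN γ⟩ g (γ * g * γ⁻¹) rfl]
      rfl
    have hAsc : ∀ c : Fˣ, Ad ⟨sc V c, hscN c⟩ = 1 := by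
      intro c
      apply MulEquiv.ext
      intro q
      obtain ⟨g, rfl⟩ := QuotientGroup.mk_surjective q
      rw [hAd ⟨sc V c, hscN c⟩ g g
        (by change (g : Equiv.Perm V) = sc _ c * (g : Equiv.Perm V) * (sc _ c)⁻¹
            rw [← sc_comm (hmem g).1 c, mul_inv_cancel_right])]
      rfl
    obtain ⟨g, hg, c, hc⟩ := hgen
    refine ⟨fun i => QuotientGroup.mk (⟨g i, hg i⟩ : Om B), ?_⟩
    set H := Subgroup.closure (Set.range fun i =>
      MulAut.conj ((fun i => (QuotientGroup.mk (⟨g i, hg i⟩ : Om B) : POm B)) i) * x *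
        (MulAut.conj ((fun i => (QuotientGroup.mk (⟨g i, hg i⟩ : Om B) : POm B)) i))⁻¹) with hH
    have hK : Subgroup.closure (Set.range fun i => g i * y * (g i)⁻¹) ≤
        (H.comap Ad).map N.subtype := by
      rw [Subgroup.closure_le]
      rintro _ ⟨i, rfl⟩
      have hgi : g i ∈ N := hφN ⟨g i, hg i⟩
      refine ⟨⟨g i, hgi⟩ * ⟨y, hyN⟩ * (⟨g i, hgi⟩ : N)⁻¹, ?_, rfl⟩
      change Ad (⟨g i, hgi⟩ * ⟨y, hyN⟩ * (⟨g i, hgi⟩ : N)⁻¹) ∈ H
      have e1 : Ad ⟨g i, hgi⟩ = MulAut.conj (QuotientGroup.mk (⟨g i, hg i⟩ : Om B)) :=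
        hAφ ⟨g i, hg i⟩
      rw [map_mul, map_mul, map_inv, e1, hAy]
      exact Subgroup.subset_closure ⟨i, rfl⟩
    have hzN : z ∈ N := hφN ⟨z, hz⟩
    have hzH : Ad ⟨z, hzN⟩ ∈ H := by
      obtain ⟨u, hu, hu2⟩ := hK hc
      have e1 : u = ⟨sc V c, hscN c⟩ * ⟨z, hzN⟩ := by
        apply Subtype.ext
        exact hu2
      have e2 : Ad u ∈ H := hu
      rw [e1, map_mul, hAsc, one_mul] at e2
      exact e2
    have hpow : (Ad ⟨z, hzN⟩) ^ Nat.card H = 1 := by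
      have h1 : (⟨Ad ⟨z, hzN⟩, hzH⟩ : H) ^ Nat.card H = 1 := pow_card_eq_one'
      have h2 := congrArg (Subtype.val) h1
      exact h2
    have hwN : z ^ Nat.card H ∈ N := Subgroup.pow_mem _ hzN _
    have hwO : z ^ Nat.card H ∈ Om B := Subgroup.pow_mem _ hz _
    have hAw : Ad ⟨z ^ Nat.card H, hwN⟩ = 1 := by
      rw [← hpow, ← map_pow]
      rfl
    have hsc : ∃ c : F, ∀ v, (z ^ Nat.card H) v = c • v := by
      refine cno B h2 hB hfr _ (Om_le B hwO) ?_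
      intro g' hg'
      have hh : z ^ Nat.card H * g' * (z ^ Nat.card H)⁻¹ ∈ Om B :=
        (Om B).mul_mem ((Om B).mul_mem hwO hg') ((Om B).inv_mem hwO)
      have h1 : Ad ⟨z ^ Nat.card H, hwN⟩ (QuotientGroup.mk (⟨g', hg'⟩ : Om B)) =
          QuotientGroup.mk (⟨_, hh⟩ : Om B) :=
        hAd ⟨z ^ Nat.card H, hwN⟩ ⟨g', hg'⟩ ⟨_, hh⟩ rfl
      rw [hAw] at h1
      have h3 : (⟨g', hg'⟩ : Om B)⁻¹ * ⟨_, hh⟩ ∈ Subgroup.center (Om B) :=
        QuotientGroup.eq.1 h1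
      obtain ⟨c, hc⟩ := FG_centre cno B h2 hB hfr _ h3
      refine ⟨c, fun v => ?_⟩
      have h4 : (⟨g', hg'⟩ : Om B) * ((⟨g', hg'⟩ : Om B)⁻¹ * ⟨_, hh⟩) =
          ((⟨g', hg'⟩ : Om B)⁻¹ * ⟨_, hh⟩) * ⟨g', hg'⟩ := Subgroup.mem_center_iff.1 h3 ⟨g', hg'⟩
      rw [mul_inv_cancel_left] at h4
      have h5 : z ^ Nat.card H * g' * (z ^ Nat.card H)⁻¹ =
          (g'⁻¹ * (z ^ Nat.card H * g' * (z ^ Nat.card H)⁻¹)) * g' := congrArg Subtype.val h4
      have e : z ^ Nat.card H * g' * (z ^ Nat.card H)⁻¹ * g'⁻¹ =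
          g'⁻¹ * (z ^ Nat.card H * g' * (z ^ Nat.card H)⁻¹) := by
        rw [mul_inv_eq_iff_eq_mul]
        exact h5
      rw [e]
      exact hc v
    obtain ⟨c, hc⟩ := hsc
    exact hNS (Nat.card H) c hc

end Pool.Agent.ORT
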